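import Pool.Agent.Helper63.Sel.Omega

/-!
The selection principle `S_1(D_Ω, D_Ω)` and the game `G_1(D_Ω, D_Ω)`.
-/

namespace Pool.Agent.Results.MP_549d70_gt.GameOne

open Set

universe u

/-- The families of open sets whose union is dense. -/
def DFam (X : Type u) [TopologicalSpace X] : Set (Set (Set X)) :=
  {𝒰 | (∀ U ∈ 𝒰, IsOpen U) ∧ Dense (⋃₀ 𝒰)}

/-- The families `𝒰` of open sets with dense union such that no member of `𝒰` is dense and every
finite family `ℱ` of nonempty open sets has a member of `𝒰` meeting every member of `ℱ`. -/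
def DOmega (X : Type u) [TopologicalSpace X] : Set (Set (Set X)) :=
  {𝒰 | 𝒰 ∈ DFam X ∧ (∀ U ∈ 𝒰, ¬ (univ : Set X) ⊆ closure U) ∧
    ∀ ℱ : Set (Set X), ℱ.Finite → (∀ F ∈ ℱ, IsOpen F ∧ F.Nonempty) →
      ∃ U ∈ 𝒰, ∀ F ∈ ℱ, (U ∩ F).Nonempty}

/-- The selection principle `S_1(D_Ω, D_Ω)`. -/
def S1 (X : Type u) [TopologicalSpace X] : Prop :=
  ∀ 𝒰 : ℕ → Set (Set X), (∀ n, 𝒰 n ∈ DOmega X) →
    ∃ U : ℕ → Set X, (∀ n, U n ∈ 𝒰 n) ∧ {V | ∃ n, U n = V} ∈ DOmega X

/-- The first `n` members of the sequence `p`, the latest first. -/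
def hist {α : Type u} (p : ℕ → α) : ℕ → List α
  | 0 => []
  | n + 1 => p n :: hist p n

/-- The list `h` (latest first) of answers of TWO is possible when ONE follows `σ`. -/
def Legal {X : Type u} (σ : List (Set X) → Set (Set X)) : List (Set X) → Prop
  | [] => True
  | U :: h => Legal σ h ∧ U ∈ σ h

/-- `σ` is a winning strategy of ONE in `G_1(D_Ω, D_Ω)`: it plays a member of `D_Ω` after every
possible list of answers of TWO, and no play in which ONE follows `σ` is won by TWO. -/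
def IsWinning (X : Type u) [TopologicalSpace X] (σ : List (Set X) → Set (Set X)) : Prop :=
  (∀ h, Legal σ h → σ h ∈ DOmega X) ∧
    ∀ U : ℕ → Set X, (∀ n, U n ∈ σ (hist U n)) → {V | ∃ n, U n = V} ∉ DOmega X

theorem mem_DOmega_iff (X : Type u) [TopologicalSpace X] (𝒰 : Set (Set X)) :
    𝒰 ∈ DOmega X ↔ Helper63.Sel.Fam (Helper63.Sel.capO X) (Helper63.Sel.admO X) 𝒰 :=
  (Helper63.Sel.fam_iff X 𝒰).symm

theorem hist_eq {α : Type u} (p : ℕ → α) (n : ℕ) : hist p n = Helper63.Sel.hist p n := by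
  induction n with
  | zero => rfl
  | succ n ih => simp only [hist, Helper63.Sel.hist, ih]

theorem hist_length {α : Type u} (p : ℕ → α) (n : ℕ) : (hist p n).length = n := by
  induction n with
  | zero => rfl
  | succ n ih => simp [hist, ih]

/-- For every topological space `X`: `S_1(D_Ω, D_Ω)` holds if and only if ONE has no winning
strategy in the game `G_1(D_Ω, D_Ω)`. -/
theorem result (X : Type u) [TopologicalSpace X] :
    S1 X ↔ ¬ ∃ σ : List (Set X) → Set (Set X), IsWinning X σ := by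
  constructor
  · rintro hX ⟨σ, hσ, hwin⟩
    have hS : Helper63.Sel.SelOne (Helper63.Sel.capO X) (Helper63.Sel.admO X) := by
      intro 𝒰 h𝒰
      obtain ⟨U, h1, h2⟩ := hX 𝒰 fun n => (mem_DOmega_iff X _).mpr (h𝒰 n)
      exact ⟨U, h1, (mem_DOmega_iff X _).mp h2⟩
    obtain ⟨U, h1, h2⟩ := Helper63.Sel.beat_one (Helper63.Sel.goodO X) hS σ (Legal σ) trivial
      (fun h U hh hU => ⟨hh, hU⟩) (fun h hh => (mem_DOmega_iff X _).mp (hσ h hh))
    exact hwin U (fun n => by rw [hist_eq]; exact h1 n) ((mem_DOmega_iff X _).mpr h2)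
  · intro hno
    by_contra hX
    unfold S1 at hX
    push Not at hX
    obtain ⟨𝒰, h1, h2⟩ := hX
    refine hno ⟨fun h => 𝒰 h.length, fun h _ => h1 h.length, fun U hU => h2 U fun n => ?_⟩
    have := hU n
    simpa [hist_length] using this

end Pool.Agent.Results.MP_549d70_gt.GameOne
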